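import Mathlib
import Pool.Agent.Work.MP_61cc98_al_helper49.Defs
import Pool.Agent.Work.MP_61cc98_al_helper49.Supq

set_option autoImplicit false

/-!
MP_61cc98_al, Q1, answered in the negative by an infinite family of classical simple algebras: for
positive `p ≠ q` the real semisimple Lie algebra `su(p,q)` contains the element
`z = i * diag(q,..,q,-p,..,-p)`, and neither `z` nor any nonzero real multiple of `z` is a bracket.
-/

namespace Pool.Agent.Results.MP_61cc98_al.PseudoUnitary

open Matrix Pool.Agent.Work.MP_61cc98_al_helper49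

attribute [local instance 100] LieRing.ofAssociativeRing

/-- For positive `p ≠ q`, `su(p,q)` is a finite-dimensional real semisimple Lie algebra, the
matrix `zMat p q = i * diag(q,..,q,-p,..,-p)` lies in it, and no nonzero real multiple of it is a
bracket of two elements of `su(p,q)`. -/
theorem result (p q : ℕ) (hp : 0 < p) (hq : 0 < q) (hpq : p ≠ q) :
    FiniteDimensional ℝ (su p q) ∧ LieAlgebra.IsSemisimple ℝ (su p q) ∧
      ∃ z : su p q, (z : Matrix (Fin p ⊕ Fin q) (Fin p ⊕ Fin q) ℂ) = zMat p q ∧
        ∀ c : ℝ, c ≠ 0 → ∀ x y : su p q, ⁅x, y⁆ ≠ c • z := by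
  refine ⟨inferInstance, su_isSemisimple hp, ⟨zMat p q, zMat_mem⟩, rfl, ?_⟩
  intro c hc x y h
  apply z_not_bracket hp hq hpq (c⁻¹ • x) y
  rw [smul_lie, h, smul_smul, inv_mul_cancel₀ hc, one_smul]

end Pool.Agent.Results.MP_61cc98_al.PseudoUnitary
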